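import Pool.Agent.H66.GEO.STR2
import Pool.Agent.H43.UB.UH

/-!
# DIM* (MP_8f2e1c_an), chapter X*, marked points: the abstract contradiction

`mq_abs`: a lift system `LS Q Lf`, the symmetric domain `φ0 '' ball 0 1` and a domain `θ '' ball 0 1` with the map `Fk` of degree
`2 ^ s` onto it, crossing it. If all lifts over `θ ∘ ξ` factor through `ξ`, this is contradictory: the lift `Gk` over the collar
of `θ` has period `2 π i`, so (`pb`) the lift `G0` over the collar of `φ0` has period `2 ^ s * 2 π i`; `G0 (t + 2 π i) = a G0 t + b`,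
`a` real, so `a = ± 1` and `G0` has period `4 π i`: against `typ`.
-/

set_option autoImplicit false

open Filter Topology Metric Set

namespace Pool.Agent.H65.MP

open Pool.Agent.H66.GEO

/-- iterates of an affine map -/
private theorem iter_aff {G : ℂ → ℂ} {S : Set ℂ} {c : ℂ} {a : ℝ} {b : ℂ} (hS : ∀ t ∈ S, t + c ∈ S)
    (h : ∀ t ∈ S, G (t + c) = a * G t + b) (n : ℕ) :
    ∃ B : ℂ, (a = 1 → B = n * b) ∧ ∀ t ∈ S, t + n * c ∈ S ∧ G (t + n * c) = (a : ℂ) ^ n * G t + B := by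
  induction n with
  | zero => exact ⟨0, fun _ => by simp, fun t ht => by simpa using ht⟩
  | succ n ih =>
    obtain ⟨B, hB1, hB⟩ := ih
    refine ⟨a * B + b, fun ha => ?_, fun t ht => ?_⟩
    · rw [hB1 ha, ha]
      push_cast
      ring
    · have h1 := hB t ht
      have h2 : t + ((n + 1 : ℕ) : ℂ) * c = (t + n * c) + c := by
        push_cast
        ring
      rw [h2]
      refine ⟨hS _ h1.1, ?_⟩
      rw [h _ h1.1, h1.2, pow_succ]
      ring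

theorem mq_abs {Q : Set ℂ} {Lf : Set ℂ → (ℂ → ℂ) → (ℂ → ℂ) → Prop} (h : LS Q Lf) {th r : ℝ} (th0 : 0 < th) (thr : th < r)
    (r1 : r < 1) {φ0 : ℂ → ℂ} (dφ : DifferentiableOn ℂ φ0 (ball 0 1)) (iφ : InjOn φ0 (ball 0 1))
    (oφ : ∀ x ∈ ball (0 : ℂ) 1, φ0 (-x) = - φ0 x) (bφ : Bornology.IsBounded (φ0 '' ball 0 1))
    (of0 : ∀ x ∈ ball (0 : ℂ) 1, th < ‖x‖ → φ0 x ∉ Q)
    (ex : ∃ (S : Set ℂ) (H G : ℂ → ℂ) (v x : ℂ), Lf S H G ∧ v ∈ S ∧ ‖x‖ < 1 ∧ th < ‖x‖ ∧ H v = φ0 x)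
    {ω α : ℕ → ℂ} (hω : ∀ m, ‖ω m‖ = 1) (hα : ∀ m, ‖α m‖ < 1) (cv : ∀ m, ‖BB ω α m (ω m * α m)‖ ≤ th)
    {θ Fk : ℂ → ℂ} (dθ : DifferentiableOn ℂ θ (ball 0 1)) (iθ : InjOn θ (ball 0 1)) {s : ℕ}
    (rel : ∀ x ∈ ball (0 : ℂ) 1, Fk (θ x) = φ0 (BB ω α s x))
    (off : ∀ x ∈ ball (0 : ℂ) 1, th < ‖BB ω α s x‖ → θ x ∉ Q)
    (pb : ∀ {S : Set ℂ} {H G' G : ℂ → ℂ}, Lf S H G' → (∀ v ∈ S, H v ∈ θ '' ball 0 1) →
      Lf S (fun v => Fk (H v)) G → ∃ (a : ℝ) (b : ℂ), a ≠ 0 ∧ ∀ v ∈ S, G v = a * G' v + b)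
    (cr : ∃ x y : ℂ, ‖x‖ = r ∧ ‖y‖ < 1 ∧ ‖BB ω α s y‖ = r ∧ θ y = φ0 x)
    (hper : ∀ {S : Set ℂ} {H G ξ : ℂ → ℂ}, Lf S H G → DifferentiableOn ℂ ξ S →
      (∀ v ∈ S, ξ v ∈ ball (0 : ℂ) 1 ∧ H v = θ (ξ v)) → ∀ v ∈ S, ∀ v' ∈ S, ξ v = ξ v' → G v = G v') : False := by
  have h1 : th < 1 := thr.trans r1
  obtain ⟨x, hx0, hx, -⟩ := xx_all th0 h1 hω hα cv
  have hX0 := hx 0
  rw [hx0] at hX0
  have hXs := hx s
  have hball : ∀ {y : ℂ}, ‖y‖ < 1 → y ∈ ball (0 : ℂ) 1 := fun hy => by rwa [mem_ball_zero_iff]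
  have der_inj : ∀ {g : ℂ → ℂ}, DifferentiableOn ℂ g (ball 0 1) → InjOn g (ball 0 1) → ∀ y ∈ ball (0 : ℂ) 1, deriv g y ≠ 0 := by
    intro g gd gi y hy
    exact Pool.Agent.H43.UB.uh_der isOpen_ball gd gi hy
  -- the strip maps
  have dcomp : ∀ {g ξ : ℂ → ℂ} {S : Set ℂ}, DifferentiableOn ℂ g (ball 0 1) → InjOn g (ball 0 1) → IsOpen S →
      DifferentiableOn ℂ ξ S → (∀ t ∈ S, ‖ξ t‖ < 1) → (∀ t ∈ S, deriv ξ t ≠ 0) →
      DifferentiableOn ℂ (fun t => g (ξ t)) S ∧ ∀ t ∈ S, deriv (fun t => g (ξ t)) t ≠ 0 := by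
    intro g ξ S gd gi So ξd ξb ξ0
    refine ⟨gd.comp ξd fun t ht => hball (ξb t ht), fun t ht => ?_⟩
    have e1 := (gd.differentiableAt (isOpen_ball.mem_nhds (hball (ξb t ht)))).hasDerivAt
    have e2 := (ξd.differentiableAt (So.mem_nhds ht)).hasDerivAt
    have e3 : deriv (fun t => g (ξ t)) t = deriv g (ξ t) * deriv ξ t := (e1.comp t e2).deriv
    rw [e3]
    exact mul_ne_zero (der_inj gd gi _ (hball (ξb t ht))) (ξ0 t ht)
  have So0 : IsOpen (Ss th 0) := st_open _ _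
  have Sos : IsOpen (Ss th s) := st_open _ _
  have Sc0 : Convex ℝ (Ss th 0) := st_conv _ _
  have Scs : Convex ℝ (Ss th s) := st_conv _ _
  obtain ⟨p1, p2⟩ := dcomp dφ iφ So0 hX0.dif hX0.bal hX0.der
  obtain ⟨q1, q2⟩ := dcomp dθ iθ Sos hXs.dif hXs.bal hXs.der
  have lev0 : ∀ t ∈ Ss th 0, th < ‖Complex.exp t‖ := by
    intro t ht
    have := ((ss_norm th0).1 ht).1
    rwa [pow_zero, one_mul] at this
  have levs : ∀ t ∈ Ss th s, th < ‖BB ω α s (x s t)‖ := by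
    intro t ht
    rw [hXs.lev t ht]
    exact ((ss_norm th0).1 ht).1
  -- the lift over the collar of `φ0`
  obtain ⟨S, H, G, v, y, hL, hv, hy1, hy2, hHv⟩ := ex
  obtain ⟨t0, ht0, ht0y⟩ := hX0.sur y hy1 hy2
  obtain ⟨G0, hG0, -⟩ := h.ext hL (Ss th 0) (fun t => φ0 (Complex.exp t)) v t0 So0 Sc0 p1
    (fun t ht => ⟨of0 _ (hball (hX0.bal t ht)) (lev0 t ht), p2 t ht⟩) hv ht0 (by
      show φ0 (Complex.exp t0) = H v
      rw [ht0y, hHv])
  -- the lift over the collar of `θ`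
  obtain ⟨x1, y1, hx1, hy1', hy1s, hyx⟩ := cr
  obtain ⟨t1, ht1, ht1y⟩ := hX0.sur x1 (by rw [hx1]; exact r1) (by show th < ‖x1‖; rw [hx1]; exact thr)
  obtain ⟨t2, ht2, ht2y⟩ := hXs.sur y1 hy1' (by rw [hy1s]; exact thr)
  obtain ⟨Gk, hGk, -⟩ := h.ext hG0 (Ss th s) (fun t => θ (x s t)) t1 t2 Sos Scs q1
    (fun t ht => ⟨off _ (hball (hXs.bal t ht)) (levs t ht), q2 t ht⟩) ht1 ht2 (by
      show θ (x s t2) = φ0 (Complex.exp t1)
      rw [ht2y, ht1y, hyx])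
  have hpi : ∀ {s' : ℕ} {t : ℂ}, t ∈ Ss th s' → t + 2 * Real.pi * Complex.I ∈ Ss th s' := by
    intro s' t ht
    exact (st_tr (by simp)).2 ht
  -- period `2 π i` of `Gk`
  have hk : ∀ t ∈ Ss th s, Gk (t + 2 * Real.pi * Complex.I) = Gk t := by
    intro t ht
    refine hper hGk hXs.dif (fun v hv => ⟨hball (hXs.bal v hv), rfl⟩) _ (hpi ht) _ ht ?_
    have e : t + 2 * Real.pi * Complex.I = (t + Real.pi * Complex.I) + Real.pi * Complex.I := by ring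
    rw [e, hXs.per _ (st_pi.mpr ht), hXs.per _ ht, neg_neg]
  -- comparison
  have h2s : (2 : ℂ) ^ s ≠ 0 := pow_ne_zero _ two_ne_zero
  have hsub := h.sub hG0 (Ss th s) (fun t => 2 ^ s * t) (fun t => Fk (θ (x s t))) (fun t => G0 (2 ^ s * t)) Sos Scs
    (by fun_prop) (by
      intro t ht
      refine ⟨ss_pow.1 ht, ?_, ?_, rfl⟩
      · rw [deriv_const_mul _ differentiableAt_id, deriv_id'', mul_one]
        exact h2s
      · show Fk (θ (x s t)) = φ0 (Complex.exp (2 ^ s * t))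
        rw [rel _ (hball (hXs.bal t ht)), hXs.lev t ht])
  obtain ⟨a', b', -, hab'⟩ := pb hGk (fun t ht => ⟨x s t, hball (hXs.bal t ht), rfl⟩) hsub
  have hG0N : ∀ t ∈ Ss th 0, G0 (t + (2 ^ s : ℕ) * (2 * Real.pi * Complex.I)) = G0 t := by
    intro t ht
    obtain ⟨v, hv⟩ : ∃ v : ℂ, 2 ^ s * v = t := ⟨t / 2 ^ s, mul_div_cancel₀ _ h2s⟩
    have hvs : v ∈ Ss th s := by
      rw [ss_pow, hv]
      exact ht
    have e1 : t + (2 ^ s : ℕ) * (2 * Real.pi * Complex.I) = 2 ^ s * (v + 2 * Real.pi * Complex.I) := by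
      rw [← hv]
      push_cast
      ring
    rw [e1, hab' _ (hpi hvs), hk v hvs, ← hab' v hvs, hv]
  -- the holonomy
  have hsub2 := h.sub hG0 (Ss th 0) (fun t => t + 2 * Real.pi * Complex.I) (fun t => φ0 (Complex.exp t))
    (fun t => G0 (t + 2 * Real.pi * Complex.I)) So0 Sc0 (by fun_prop) (by
      intro t ht
      refine ⟨hpi ht, ?_, ?_, rfl⟩
      · rw [deriv_add_const, deriv_id'']
        exact one_ne_zero
      · show φ0 (Complex.exp t) = φ0 (Complex.exp (t + 2 * Real.pi * Complex.I))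
        rw [Complex.exp_add, Complex.exp_two_pi_mul_I, mul_one])
  obtain ⟨a, b, ha, hab⟩ := h.gal hG0 hsub2
  obtain ⟨B, hB1, hB⟩ := iter_aff (fun t ht => hpi ht) hab (2 ^ s)
  have hderiv := (h.dG hG0).2
  have haN : (a : ℂ) ^ (2 ^ s) = 1 := by
    have e0 : ∀ t ∈ Ss th 0, (a : ℂ) ^ (2 ^ s) * G0 t + B = G0 t := by
      intro t ht
      rw [← (hB t ht).2]
      exact hG0N t ht
    have e1 : deriv (fun t => (a : ℂ) ^ (2 ^ s) * G0 t + B) t0 = deriv G0 t0 := by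
      refine Filter.EventuallyEq.deriv_eq ?_
      filter_upwards [So0.mem_nhds ht0] with t ht
      exact e0 t ht
    rw [deriv_add_const, deriv_const_mul_field] at e1
    have e2 := hderiv t0 ht0
    exact mul_right_cancel₀ e2 (by rw [e1, one_mul])
  have haR : a ^ (2 ^ s) = 1 := by exact_mod_cast haN
  have ha1 : a = 1 ∨ a = -1 := by
    have e1 : |a| ^ (2 ^ s) = 1 := by rw [← abs_pow, haR, abs_one]
    have e2 : |a| = 1 := (pow_eq_one_iff_of_nonneg (abs_nonneg a) (by positivity)).1 e1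
    rcases abs_cases a with ⟨e3, -⟩ | ⟨e3, -⟩
    · left
      linarith
    · right
      linarith
  -- period `4 π i`
  have h4 : ∀ t ∈ Ss th 0, G0 (t + 4 * Real.pi * Complex.I) = G0 t := by
    intro t ht
    have e0 : t + 4 * Real.pi * Complex.I = (t + 2 * Real.pi * Complex.I) + 2 * Real.pi * Complex.I := by ring
    have e1 : G0 (t + 2 * Real.pi * Complex.I + 2 * Real.pi * Complex.I) = a * G0 (t + 2 * Real.pi * Complex.I) + b :=
      hab _ (hpi ht)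
    have e2 : G0 (t + 2 * Real.pi * Complex.I) = a * G0 t + b := hab t ht
    rw [e0, e1, e2]
    rcases ha1 with h' | h'
    · have e3 := (hB t ht).2
      rw [hG0N t ht, haN, hB1 h', one_mul] at e3
      have e4 : ((2 ^ s : ℕ) : ℂ) * b = 0 := by linear_combination -e3
      have e5 : b = 0 := by
        rcases mul_eq_zero.1 e4 with e5 | e5
        · exact absurd e5 (by exact_mod_cast (by positivity : (0 : ℕ) < 2 ^ s).ne')
        · exact e5
      rw [h', e5]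
      push_cast
      ring
    · rw [h']
      push_cast
      ring
  have hSt : St (Real.log (1 - (1 - th))) 0 = Ss th 0 := by
    unfold Ss
    rw [sub_sub_cancel, pow_zero, div_one]
  refine h.typ φ0 G0 (1 - th) (by linarith) (by linarith) dφ iφ bφ ⟨0, mem_ball_self one_pos, ?_⟩ ?_ ?_
  · have e1 := oφ 0 (mem_ball_self one_pos)
    rw [neg_zero] at e1
    have e2 : (2 : ℂ) * φ0 0 = 0 := by linear_combination e1
    exact (mul_eq_zero.1 e2).resolve_left two_ne_zero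
  · rw [hSt]
    exact hG0
  · rw [hSt]
    exact h4

end Pool.Agent.H65.MP
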