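import Mathlib

/-!
# DIM* (MP_8f2e1c_an), chapter X*, marked points: germs which are affinely related have a common primitive on the disc

`aff_glue`: a family of locally injective holomorphic functions `γ i` on open sets `B i` which cover the unit disc, any two of
which are related by `z ↦ a z + b` (locally on the overlap), comes from one locally injective holomorphic function `Γ` on the
disc: `γ i = a Γ + b` locally. PROOF: the pre-Schwarzian `h = γ'' / γ'` is one holomorphic function on the disc; `L' = h`,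
`Γ' = exp L`. `aff_lift`: if `G` on the connected open set `S` is locally `γ i ∘ ξ`, `ξ : S → ball 0 1`, then
`ξ u = ξ u'` implies `G u = G u'`.
-/

set_option autoImplicit false

open Filter Topology Metric Set

namespace Pool.Agent.H65.MP

private theorem aff_der {f g : ℂ → ℂ} {x a b : ℂ} (h : ∀ᶠ y in 𝓝 x, f y = a * g y + b) :
    ∀ᶠ y in 𝓝 x, deriv f y = a * deriv g y := by
  filter_upwards [h.eventually_nhds] with y hy
  have h1 : deriv f y = deriv (fun z => a * g z + b) y := Filter.EventuallyEq.deriv_eq hy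
  rw [h1, deriv_add_const, deriv_const_mul_field]

private theorem aff_pre {f g : ℂ → ℂ} {x a b : ℂ} (h : ∀ᶠ y in 𝓝 x, f y = a * g y + b) (hf : deriv f x ≠ 0) :
    deriv (deriv f) x / deriv f x = deriv (deriv g) x / deriv g x := by
  have h1 := aff_der h
  have h2 : deriv (deriv f) x = deriv (fun z => a * deriv g z) x := Filter.EventuallyEq.deriv_eq h1
  rw [deriv_const_mul_field] at h2
  have h3 : deriv f x = a * deriv g x := h1.self_of_nhds
  have ha : a ≠ 0 := by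
    rintro rfl
    rw [zero_mul] at h3
    exact hf h3
  rw [h2, h3, mul_div_mul_left _ _ ha]

theorem aff_glue {ι : Type} (B : ι → Set ℂ) (γ : ι → ℂ → ℂ) (Bo : ∀ i, IsOpen (B i))
    (γd : ∀ i, DifferentiableOn ℂ (γ i) (B i)) (γ0 : ∀ i, ∀ x ∈ B i, deriv (γ i) x ≠ 0)
    (cov : ∀ x ∈ ball (0 : ℂ) 1, ∃ i, x ∈ B i)
    (cmp : ∀ i j, ∀ x ∈ B i, x ∈ B j → ∃ a b : ℂ, ∀ᶠ y in 𝓝 x, γ i y = a * γ j y + b) :
    ∃ Γ : ℂ → ℂ, DifferentiableOn ℂ Γ (ball 0 1) ∧ (∀ x ∈ ball (0 : ℂ) 1, deriv Γ x ≠ 0) ∧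
      ∀ i, ∀ x ∈ B i, x ∈ ball (0 : ℂ) 1 → ∃ a b : ℂ, ∀ᶠ y in 𝓝 x, γ i y = a * Γ y + b := by
  classical
  have hne : Nonempty ι := by
    obtain ⟨i, -⟩ := cov 0 (mem_ball_self one_pos)
    exact ⟨i⟩
  choose! ix hix using cov
  obtain ⟨h, hh⟩ : ∃ h : ℂ → ℂ, ∀ x, h x = deriv (deriv (γ (ix x))) x / deriv (γ (ix x)) x := ⟨_, fun _ => rfl⟩
  have hval : ∀ i, ∀ x ∈ B i, x ∈ ball (0 : ℂ) 1 → h x = deriv (deriv (γ i)) x / deriv (γ i) x := by
    intro i x hx hx1
    obtain ⟨a, b, hab⟩ := cmp (ix x) i x (hix x hx1) hx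
    rw [hh]
    exact aff_pre hab (γ0 _ _ (hix x hx1))
  have hd : DifferentiableOn ℂ h (ball 0 1) := by
    intro x hx
    have e1 : DifferentiableAt ℂ (fun y => deriv (deriv (γ (ix x))) y / deriv (γ (ix x)) y) x := by
      have d1 : DifferentiableOn ℂ (deriv (γ (ix x))) (B (ix x)) := (γd _).deriv (Bo _)
      have d2 : DifferentiableOn ℂ (deriv (deriv (γ (ix x)))) (B (ix x)) := d1.deriv (Bo _)
      have hm := (Bo (ix x)).mem_nhds (hix x hx)
      exact (d2.differentiableAt hm).div (d1.differentiableAt hm) (γ0 _ _ (hix x hx))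
    refine (e1.congr_of_eventuallyEq ?_).differentiableWithinAt
    filter_upwards [(Bo (ix x)).mem_nhds (hix x hx), isOpen_ball.mem_nhds hx] with y hy hy1
    exact hval _ y hy hy1
  obtain ⟨L, hL⟩ := hd.isExactOn_ball
  have hLd : DifferentiableOn ℂ L (ball 0 1) := fun x hx => (hL x hx).differentiableAt.differentiableWithinAt
  have hE : DifferentiableOn ℂ (fun x => Complex.exp (L x)) (ball 0 1) := hLd.cexp
  obtain ⟨Γ, hΓ⟩ := hE.isExactOn_ball
  have hΓ' : ∀ x ∈ ball (0 : ℂ) 1, deriv Γ x = Complex.exp (L x) := fun x hx => (hΓ x hx).deriv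
  refine ⟨Γ, fun x hx => (hΓ x hx).differentiableAt.differentiableWithinAt, fun x hx => ?_, ?_⟩
  · rw [hΓ' x hx]
    exact Complex.exp_ne_zero _
  intro i x hx hx1
  obtain ⟨r, hr, hrs⟩ := Metric.isOpen_iff.1 ((Bo i).inter isOpen_ball) x ⟨hx, hx1⟩
  have hr1 : ball x r ⊆ B i := fun y hy => (hrs hy).1
  have hr2 : ball x r ⊆ ball (0 : ℂ) 1 := fun y hy => (hrs hy).2
  have hc : x ∈ ball x r := mem_ball_self hr
  have d1 : DifferentiableOn ℂ (deriv (γ i)) (B i) := (γd i).deriv (Bo i)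
  -- the quotient of the derivatives is constant
  have q1 : ∀ y ∈ ball x r, HasDerivAt (fun z => deriv (γ i) z * Complex.exp (-L z)) 0 y := by
    intro y hy
    have e1 : HasDerivAt (deriv (γ i)) (deriv (deriv (γ i)) y) y :=
      (d1.differentiableAt ((Bo i).mem_nhds (hr1 hy))).hasDerivAt
    have e2 : HasDerivAt (fun z => Complex.exp (-L z)) (Complex.exp (-L y) * (-h y)) y := (hL y (hr2 hy)).neg.cexp
    have e3 := e1.mul e2
    have e4 : h y * deriv (γ i) y = deriv (deriv (γ i)) y := by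
      rw [hval i y (hr1 hy) (hr2 hy), div_mul_cancel₀ _ (γ0 i y (hr1 hy))]
    have e5 : deriv (deriv (γ i)) y * Complex.exp (-L y) + deriv (γ i) y * (Complex.exp (-L y) * (-h y)) = 0 := by
      rw [← e4]
      ring
    rw [e5] at e3
    exact e3
  have q2 : ∀ y ∈ ball x r, deriv (γ i) y * Complex.exp (-L y) = deriv (γ i) x * Complex.exp (-L x) := by
    intro y hy
    exact isOpen_ball.is_const_of_deriv_eq_zero (convex_ball x r).isPreconnected
      (fun z hz => (q1 z hz).differentiableAt.differentiableWithinAt) (fun z hz => (q1 z hz).deriv) hy hc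
  obtain ⟨a, ha⟩ : ∃ a : ℂ, a = deriv (γ i) x * Complex.exp (-L x) := ⟨_, rfl⟩
  have q3 : ∀ y ∈ ball x r, deriv (γ i) y = a * deriv Γ y := by
    intro y hy
    rw [ha, ← q2 y hy, hΓ' y (hr2 hy), mul_assoc, ← Complex.exp_add, neg_add_cancel, Complex.exp_zero, mul_one]
  have q4 : ∀ y ∈ ball x r, HasDerivAt (fun z => γ i z - a * Γ z) 0 y := by
    intro y hy
    have e1 : HasDerivAt (γ i) (deriv (γ i) y) y := ((γd i).differentiableAt ((Bo i).mem_nhds (hr1 hy))).hasDerivAt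
    have e2 : HasDerivAt Γ (deriv Γ y) y := (hΓ y (hr2 hy)).differentiableAt.hasDerivAt
    have e3 := e1.sub (e2.const_mul a)
    rw [q3 y hy, sub_self] at e3
    exact e3
  refine ⟨a, γ i x - a * Γ x, ?_⟩
  filter_upwards [isOpen_ball.mem_nhds hc] with y hy
  have := isOpen_ball.is_const_of_deriv_eq_zero (convex_ball x r).isPreconnected
      (fun z hz => (q4 z hz).differentiableAt.differentiableWithinAt) (fun z hz => (q4 z hz).deriv) hy hc
  have h2 : γ i y - a * Γ y = γ i x - a * Γ x := this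
  rw [← h2]
  ring

/-- functions which are locally `γ i ∘ ξ` take equal values where `ξ` does -/
theorem aff_lift {ι : Type} (B : ι → Set ℂ) (γ : ι → ℂ → ℂ) (Bo : ∀ i, IsOpen (B i))
    (γd : ∀ i, DifferentiableOn ℂ (γ i) (B i)) (γ0 : ∀ i, ∀ x ∈ B i, deriv (γ i) x ≠ 0)
    (cov : ∀ x ∈ ball (0 : ℂ) 1, ∃ i, x ∈ B i)
    (cmp : ∀ i j, ∀ x ∈ B i, x ∈ B j → ∃ a b : ℂ, ∀ᶠ y in 𝓝 x, γ i y = a * γ j y + b)
    {S : Set ℂ} (So : IsOpen S) (Sc : IsPreconnected S) {G ξ : ℂ → ℂ} (Gd : DifferentiableOn ℂ G S)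
    (ξd : DifferentiableOn ℂ ξ S) (ξm : ∀ u ∈ S, ξ u ∈ ball (0 : ℂ) 1) {u0 : ℂ} (hu0 : u0 ∈ S)
    (loc : ∃ i, ξ u0 ∈ B i ∧ ∀ᶠ u in 𝓝 u0, G u = γ i (ξ u)) :
    ∀ u ∈ S, ∀ u' ∈ S, ξ u = ξ u' → G u = G u' := by
  obtain ⟨Γ, hΓ1, hΓ2, hΓ3⟩ := aff_glue B γ Bo γd γ0 cov cmp
  obtain ⟨i, hi, hG⟩ := loc
  obtain ⟨a, b, hab⟩ := hΓ3 i _ hi (ξm u0 hu0)
  have hEq : EqOn G (fun u => a * Γ (ξ u) + b) S := by
    have hΓξ : DifferentiableOn ℂ (fun u => Γ (ξ u)) S := hΓ1.comp ξd ξm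
    refine (Gd.analyticOnNhd So).eqOn_of_preconnected_of_eventuallyEq
      (((hΓξ.const_mul a).add_const b).analyticOnNhd So) Sc hu0 ?_
    have hc : Tendsto ξ (𝓝 u0) (𝓝 (ξ u0)) := (ξd.differentiableAt (So.mem_nhds hu0)).continuousAt
    filter_upwards [hG, hc.eventually hab] with u e1 e2
    rw [e1, e2]
  intro u hu u' hu' he
  rw [hEq hu, hEq hu']
  show a * Γ (ξ u) + b = a * Γ (ξ u') + b
  rw [he]

end Pool.Agent.H65.MP
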