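import Pool.Agent.H65.MP.Rq
import Pool.Agent.H65.MP.Aff
import Pool.Agent.H41.XF.Lr

/-!
# DIM* (MP_8f2e1c_an), chapter X*, marked points: the core

`mkc`: frames `z n ∈ E`, `R`, `σ → 0`; `θ` univalent on the disc, all points `θ x` in the limit set `Ph` are regular (`Rq`).
`Lr S H G`, `H = θ ∘ ξ`, `ξ : S → ball 0 1` holomorphic. THEN `ξ u = ξ u'` implies `G u = G u'`. PROOF. All points of
`θ '' ball 0 1` are regular or good (`rq_all`), at each of them there is a germ `g` with `b conj g / g'` = the field (`fl_fr`), two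
such germs are affinely related (`fl_gal`), `aff_lift`.
-/

set_option autoImplicit false

open Filter Topology Metric Set

namespace Pool.Agent.H65.MP

open Pool.Agent.H56.UD
open Pool.Agent.H43.UB (ph_closed uh_der)
open Pool.Agent.H64.XL (LT Lr)
open Pool.Agent.H41.XF (gb HL Yn ch XI xi_id hl_mono fl_fr fl_gal lr_loc mu_lim)

variable {f : ℂ → ℂ} {U J P Cr E : Set ℂ} {δ b0 : ℝ} {η : ℂ → ℂ → ℂ} {ρ : ℝ} {X hh μ : ℂ → ℂ}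
variable {𝒰 : Ultrafilter ℕ} {z x R σ : ℕ → ℂ} {k : ℕ → ℕ}

/-- germs of the field -/
def Hf (𝒰 : Ultrafilter ℕ) (X : ℂ → ℂ) (x R σ : ℕ → ℂ) (b w : ℂ) (r : ℝ) (g : ℂ → ℂ) : Prop :=
  0 < r ∧ DifferentiableOn ℂ g (ball w r) ∧ (∀ v ∈ ball w r, deriv g v ≠ 0) ∧
    HL 𝒰 (Yn X x R fun n => σ n / (starRingEnd ℂ) (σ n)) (ball w r) (fun v => b * ((starRingEnd ℂ) (g v) / deriv g v))

/-- two germs are affinely related -/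
theorem hf_cmp (hR : ∀ n, R n ≠ 0) {b : ℂ} (hb0 : b ≠ 0) {w w' : ℂ} {r r' : ℝ} {g g' : ℂ → ℂ}
    (h1 : Hf 𝒰 X x R σ b w r g) (h2 : Hf 𝒰 X x R σ b w' r' g') {v : ℂ} (hv : v ∈ ball w r) (hv' : v ∈ ball w' r') :
    ∃ a c : ℂ, ∀ᶠ y in 𝓝 v, g' y = a * g y + c := by
  obtain ⟨-, g1, g2, g3⟩ := h1
  obtain ⟨-, k1, k2, k3⟩ := h2
  obtain ⟨t, ht, hts⟩ := Metric.isOpen_iff.1 (isOpen_ball.inter isOpen_ball) v ⟨hv, hv'⟩
  have s1 : ball v t ⊆ ball w r := fun y hy => (hts hy).1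
  have s2 : ball v t ⊆ ball w' r' := fun y hy => (hts hy).2
  have hce : ∀ n, ch id (x n) (R n) (x n) (R n) = id := by
    intro n
    funext u
    show (x n + R n * u - x n) / R n = u
    rw [add_sub_cancel_left, mul_div_cancel_left₀ _ (hR n)]
  have hc : TendstoLocallyUniformlyOn (fun n => ch ((fun _ => id : ℕ → ℂ → ℂ) n) (x n) (R n) (x n) (R n)) id
      (𝒰 : Filter ℕ) (ball v t) := by
    simp only [hce]
    intro V hV u _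
    exact ⟨univ, Filter.univ_mem, Eventually.of_forall fun n y _ => refl_mem_uniformity hV⟩
  obtain ⟨⟨a, c, -, -, hac⟩, -⟩ := fl_gal (S := ball v t) (S' := ball v t) isOpen_ball
    (convex_ball _ _).isPreconnected isOpen_ball hR hR (Φt := fun _ => id)
    (fun K _ _ => Eventually.of_forall fun n => ⟨univ, xi_id X, fun w _ => mem_univ _⟩)
    hc (mapsTo_id _) (g1.mono s1) (fun y hy => g2 y (s1 hy))
    (k1.mono s2) (fun y hy => k2 y (s2 hy)) hb0 hb0 (hl_mono g3 s1) (hl_mono k3 s2) (mem_ball_self ht) (by simp)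
  refine ⟨a, c, ?_⟩
  filter_upwards [isOpen_ball.mem_nhds (mem_ball_self ht)] with y hy
  exact hac y hy

/-- germs of limits of branches -/
theorem hf_of (h : PS f U J P Cr δ η ρ) (hX : FX f U J E δ X hh μ b0) (hz : ∀ n, z n ∈ E) (hR : ∀ n, R n ≠ 0)
    (hσ : ∀ n, σ n ≠ 0) (ht : Tendsto σ (𝒰 : Filter ℕ) (𝓝 0)) {b : ℂ} (hb : Tendsto (fun n => μ (z n)) (𝒰 : Filter ℕ) (𝓝 b))
    {w : ℂ} {r : ℝ} (hr : 0 < r) {G : ℕ → ℂ → ℂ} {g : ℂ → ℂ}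
    (hG : ∀ᶠ n in (𝒰 : Filter ℕ), DifferentiableOn ℂ (G n) (ball w r) ∧
      ∀ u ∈ ball w r, G n u ∈ Dn f U J δ z k σ n ∧ Fn f z k x R σ n (G n u) = u)
    (hc : TendstoLocallyUniformlyOn G g (𝒰 : Filter ℕ) (ball w r)) (gd : DifferentiableOn ℂ g (ball w r))
    (gi : InjOn g (ball w r)) : Hf 𝒰 X x R σ b w r g := by
  have hgne : ∀ v ∈ ball w r, deriv g v ≠ 0 := fun v hv => uh_der isOpen_ball gd gi hv
  refine ⟨hr, gd, hgne, ?_⟩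
  refine fl_fr (k := k) h hX hz hR hσ ht hb isOpen_ball (fun K hK _ => ?_) hc hgne
  filter_upwards [hG] with n hn
  exact ⟨ball w r, isOpen_ball, hK, hn.1, hn.2⟩

/-- germs at regular or good points -/
theorem hf_ex (h : PS f U J P Cr δ η ρ) (hX : FX f U J E δ X hh μ b0)
    (hT : LT 𝒰 (Fn f z k x R σ) (Dn f U J δ z k σ) (Pn P x R)) (hz : ∀ n, z n ∈ E) (hR : ∀ n, R n ≠ 0)
    (hσ : ∀ n, σ n ≠ 0) (ht : Tendsto σ (𝒰 : Filter ℕ) (𝓝 0)) {b : ℂ} (hb : Tendsto (fun n => μ (z n)) (𝒰 : Filter ℕ) (𝓝 b))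
    {w : ℂ} (hw : w ∈ Rq 𝒰 (Fn f z k x R σ) (Dn f U J δ z k σ) ∨ ∃ s, Gd 𝒰 (Fn f z k x R σ) (Dn f U J δ z k σ) (Pn P x R) w s) :
    ∃ (r : ℝ) (g : ℂ → ℂ), Hf 𝒰 X x R σ b w r g := by
  rcases hw with hw | ⟨s, hs⟩
  · obtain ⟨r, M, G, g, hr, h1, h2, h3, h4, h5⟩ := rq_lim hw
    exact ⟨r, g, hf_of h hX hz hR hσ ht hb hr h1 h3 h4 h5⟩
  · have hc : (Ph 𝒰 (Pn P x R))ᶜ ∈ 𝓝 w := (ph_closed (𝒰 := 𝒰) (P := Pn P x R)).isOpen_compl.mem_nhds hs.1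
    obtain ⟨r, hr, hrb⟩ := Metric.nhds_basis_closedBall.mem_iff.1 hc
    obtain ⟨Gn, g, h1, h2, _, h4, h5, h6, h7⟩ := gb hT hs hr (Set.disjoint_left.2 fun x hx hx' => hrb hx hx')
    exact ⟨r, g, hf_of h hX hz hR hσ ht hb hr h1 h2 h4 h5⟩

/-- THE CORE -/
theorem mkc (h : PS f U J P Cr δ η ρ) (hX : FX f U J E δ X hh μ b0)
    (hT : LT 𝒰 (Fn f z k x R σ) (Dn f U J δ z k σ) (Pn P x R)) (hz : ∀ n, z n ∈ E) (hR : ∀ n, R n ≠ 0)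
    (hσ : ∀ n, σ n ≠ 0) (ht : Tendsto σ (𝒰 : Filter ℕ) (𝓝 0)) {θ : ℂ → ℂ} (θd : DifferentiableOn ℂ θ (ball 0 1))
    (θi : InjOn θ (ball 0 1))
    (hreg : ∀ v ∈ ball (0 : ℂ) 1, θ v ∈ Ph 𝒰 (Pn P x R) → θ v ∈ Rq 𝒰 (Fn f z k x R σ) (Dn f U J δ z k σ))
    {S : Set ℂ} {H G ξ : ℂ → ℂ} (hL : Lr 𝒰 (Fn f z k x R σ) (Dn f U J δ z k σ) (Pn P x R) S H G)
    (ξd : DifferentiableOn ℂ ξ S) (hξ : ∀ u ∈ S, ξ u ∈ ball (0 : ℂ) 1 ∧ H u = θ (ξ u)) :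
    ∀ u ∈ S, ∀ u' ∈ S, ξ u = ξ u' → G u = G u' := by
  intro u0 hu0
  obtain ⟨b, hb0, hb⟩ := mu_lim hX 𝒰 hz
  have hall : ∀ w ∈ θ '' ball 0 1, w ∈ Rq 𝒰 (Fn f z k x R σ) (Dn f U J δ z k σ) ∨
      ∃ s, Gd 𝒰 (Fn f z k x R σ) (Dn f U J δ z k σ) (Pn P x R) w s := by
    refine rq_all hT ((convex_ball (0 : ℂ) 1).isPreconnected.image _ θd.continuousOn) ?_ ?_
    · refine ⟨H u0, ⟨ξ u0, (hξ u0 hu0).1, (hξ u0 hu0).2.symm⟩, G u0, hL.2.2.2.2.2 u0 hu0⟩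
    · rintro _ ⟨v, hv, rfl⟩ hvP
      exact hreg v hv hvP
  have θo : ∀ v ∈ ball (0 : ℂ) 1, DifferentiableAt ℂ θ v := fun v hv => θd.differentiableAt (isOpen_ball.mem_nhds hv)
  refine aff_lift (ι := {p : ℂ × ℝ × (ℂ → ℂ) // Hf 𝒰 X x R σ b p.1 p.2.1 p.2.2})
    (fun p => ball 0 1 ∩ θ ⁻¹' ball p.1.1 p.1.2.1) (fun p v => p.1.2.2 (θ v)) ?_ ?_ ?_ ?_ ?_
    hL.1 hL.2.1.isPreconnected hL.2.2.2.2.1 ξd (fun u hu => (hξ u hu).1) hu0 ?_ u0 hu0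
  · intro p
    exact θd.continuousOn.isOpen_inter_preimage isOpen_ball isOpen_ball
  · rintro ⟨⟨w, r, g⟩, hp⟩
    exact hp.2.1.comp (θd.mono inter_subset_left) fun v hv => hv.2
  · rintro ⟨⟨w, r, g⟩, hp⟩ v ⟨hv1, hv2⟩
    have d1 : HasDerivAt g (deriv g (θ v)) (θ v) := (hp.2.1.differentiableAt (isOpen_ball.mem_nhds hv2)).hasDerivAt
    have d2 := d1.comp v (θo v hv1).hasDerivAt
    show deriv (fun v => g (θ v)) v ≠ 0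
    have d3 : deriv (fun v => g (θ v)) v = deriv g (θ v) * deriv θ v := d2.deriv
    rw [d3]
    exact mul_ne_zero (hp.2.2.1 _ hv2) (uh_der isOpen_ball θd θi hv1)
  · intro v hv
    obtain ⟨r, g, hg⟩ := hf_ex (b := b) h hX hT hz hR hσ ht hb (hall _ ⟨v, hv, rfl⟩)
    exact ⟨⟨(θ v, r, g), hg⟩, hv, mem_ball_self hg.1⟩
  · rintro ⟨⟨w, r, g⟩, hp⟩ ⟨⟨w', r', g'⟩, hp'⟩ v ⟨hv1, hv2⟩ ⟨_, hv3⟩
    obtain ⟨a, c, hac⟩ := hf_cmp hR hb0 hp' hp hv3 hv2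
    exact ⟨a, c, (θo v hv1).continuousAt.eventually hac⟩
  · obtain ⟨r, g, g1, g2, g3, g4, g5⟩ := lr_loc h hX hT hz hR hσ ht hb hL hu0
    refine ⟨⟨(H u0, r, g), ⟨g1, g2, g3, g4⟩⟩, ⟨(hξ u0 hu0).1, ?_⟩, ?_⟩
    · show θ (ξ u0) ∈ ball (H u0) r
      rw [← (hξ u0 hu0).2]
      exact mem_ball_self g1
    · filter_upwards [g5, hL.1.mem_nhds hu0] with u e1 e2
      rw [e1]
      show g (H u) = g (θ (ξ u))
      rw [(hξ u e2).2]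

end Pool.Agent.H65.MP
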