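import Pool.Agent.H65.MP.Abs
import Pool.Agent.H65.MP.Core
import Pool.Agent.H91.GS.Defs

/-!
# DIM* (MP_8f2e1c_an), chapter X*: MARKED POINTS (field `mq` of `H91.GS.XT`)

`mq_of`: limits of frames `z n ∈ E`, `σ → 0`, the lift system `LS (Ph ..) (Lr ..)`, points of `Ph` which are not regular (`Rq`) are
marked (`Mk`). Then every domain `θ '' ball 0 1` with a map of degree `2 ^ s` onto the symmetric domain `φ0 '' ball 0 1`, crossing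
it, contains a marked point of `Ph` in its core. (All other hypotheses are fields of `XT`.)
-/

set_option autoImplicit false

open Filter Topology Metric Set

namespace Pool.Agent.H65.MP

open Pool.Agent.H56.UD
open Pool.Agent.H64.XL (LT Lr)
open Pool.Agent.H66.GEO (BB)
open Pool.Agent.H91.GS (Mk)

variable {f : ℂ → ℂ} {U J P Cr E : Set ℂ} {δ b0 : ℝ} {η : ℂ → ℂ → ℂ} {ρ : ℝ} {X hh μ : ℂ → ℂ}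
variable {𝒰 : Ultrafilter ℕ} {z x R σ : ℕ → ℂ} {k : ℕ → ℕ}

/-- without `Mk`: a point of the limit set in the core which is not regular -/
theorem mq_rq (h : PS f U J P Cr δ η ρ) (hX : FX f U J E δ X hh μ b0)
    (hT : LT 𝒰 (Fn f z k x R σ) (Dn f U J δ z k σ) (Pn P x R)) (hz : ∀ n, z n ∈ E) (hR : ∀ n, R n ≠ 0)
    (hσ : ∀ n, σ n ≠ 0) (ht : Tendsto σ (𝒰 : Filter ℕ) (𝓝 0))
    (hL : Pool.Agent.H66.GEO.LS (Ph 𝒰 (Pn P x R)) (Lr 𝒰 (Fn f z k x R σ) (Dn f U J δ z k σ) (Pn P x R)))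
    {th r : ℝ} (th0 : 0 < th) (thr : th < r) (r1 : r < 1) {φ0 : ℂ → ℂ} (dφ : DifferentiableOn ℂ φ0 (ball 0 1))
    (iφ : InjOn φ0 (ball 0 1)) (oφ : ∀ x ∈ ball (0 : ℂ) 1, φ0 (-x) = - φ0 x)
    (bφ : Bornology.IsBounded (φ0 '' ball 0 1)) (of0 : ∀ v ∈ ball (0 : ℂ) 1, th < ‖v‖ → φ0 v ∉ Ph 𝒰 (Pn P x R))
    (ex : ∃ (S : Set ℂ) (H G : ℂ → ℂ) (v y : ℂ), Lr 𝒰 (Fn f z k x R σ) (Dn f U J δ z k σ) (Pn P x R) S H G ∧ v ∈ S ∧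
      ‖y‖ < 1 ∧ th < ‖y‖ ∧ H v = φ0 y)
    {ω α : ℕ → ℂ} (hω : ∀ m, ‖ω m‖ = 1) (hα : ∀ m, ‖α m‖ < 1) (cv : ∀ m, ‖BB ω α m (ω m * α m)‖ ≤ th)
    {θ Fk : ℂ → ℂ} (dθ : DifferentiableOn ℂ θ (ball 0 1)) (iθ : InjOn θ (ball 0 1)) {s : ℕ}
    (rel : ∀ v ∈ ball (0 : ℂ) 1, Fk (θ v) = φ0 (BB ω α s v))
    (off : ∀ v ∈ ball (0 : ℂ) 1, th < ‖BB ω α s v‖ → θ v ∉ Ph 𝒰 (Pn P x R))
    (pb : ∀ {S : Set ℂ} {H G' G : ℂ → ℂ}, Lr 𝒰 (Fn f z k x R σ) (Dn f U J δ z k σ) (Pn P x R) S H G' →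
      (∀ v ∈ S, H v ∈ θ '' ball 0 1) →
      Lr 𝒰 (Fn f z k x R σ) (Dn f U J δ z k σ) (Pn P x R) S (fun v => Fk (H v)) G →
        ∃ (a : ℝ) (b : ℂ), a ≠ 0 ∧ ∀ v ∈ S, G v = a * G' v + b)
    (cr : ∃ v y : ℂ, ‖v‖ = r ∧ ‖y‖ < 1 ∧ ‖BB ω α s y‖ = r ∧ θ y = φ0 v) :
    ∃ y ∈ ball (0 : ℂ) 1, ‖BB ω α s y‖ < r ∧ θ y ∈ Ph 𝒰 (Pn P x R) ∧
      θ y ∉ Rq 𝒰 (Fn f z k x R σ) (Dn f U J δ z k σ) := by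
  by_contra hcon
  push Not at hcon
  have hreg : ∀ v ∈ ball (0 : ℂ) 1, θ v ∈ Ph 𝒰 (Pn P x R) → θ v ∈ Rq 𝒰 (Fn f z k x R σ) (Dn f U J δ z k σ) := by
    intro v hv hvP
    have h1 : ‖BB ω α s v‖ ≤ th := by
      by_contra hc
      exact off v hv (not_le.1 hc) hvP
    exact hcon v hv (h1.trans_lt thr) hvP
  exact mq_abs hL th0 thr r1 dφ iφ oφ bφ of0 ex hω hα cv dθ iθ rel off pb cr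
    fun hL' ξd hξ => mkc h hX hT hz hR hσ ht dθ iθ hreg hL' ξd hξ

theorem mq_of (h : PS f U J P Cr δ η ρ) (hX : FX f U J E δ X hh μ b0)
    (hT : LT 𝒰 (Fn f z k x R σ) (Dn f U J δ z k σ) (Pn P x R)) (hz : ∀ n, z n ∈ E) (hR : ∀ n, R n ≠ 0)
    (hσ : ∀ n, σ n ≠ 0) (ht : Tendsto σ (𝒰 : Filter ℕ) (𝓝 0))
    (hL : Pool.Agent.H66.GEO.LS (Ph 𝒰 (Pn P x R)) (Lr 𝒰 (Fn f z k x R σ) (Dn f U J δ z k σ) (Pn P x R)))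
    (hMk : ∀ y ∈ Ph 𝒰 (Pn P x R), y ∉ Rq 𝒰 (Fn f z k x R σ) (Dn f U J δ z k σ) →
      Mk (Lr 𝒰 (Fn f z k x R σ) (Dn f U J δ z k σ) (Pn P x R)) y)
    {th r : ℝ} (th0 : 0 < th) (thr : th < r) (r1 : r < 1) {φ0 : ℂ → ℂ} (dφ : DifferentiableOn ℂ φ0 (ball 0 1))
    (iφ : InjOn φ0 (ball 0 1)) (oφ : ∀ x ∈ ball (0 : ℂ) 1, φ0 (-x) = - φ0 x)
    (bφ : Bornology.IsBounded (φ0 '' ball 0 1)) (of0 : ∀ v ∈ ball (0 : ℂ) 1, th < ‖v‖ → φ0 v ∉ Ph 𝒰 (Pn P x R))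
    (ex : ∃ (S : Set ℂ) (H G : ℂ → ℂ) (v y : ℂ), Lr 𝒰 (Fn f z k x R σ) (Dn f U J δ z k σ) (Pn P x R) S H G ∧ v ∈ S ∧
      ‖y‖ < 1 ∧ th < ‖y‖ ∧ H v = φ0 y)
    {ω α : ℕ → ℂ} (hω : ∀ m, ‖ω m‖ = 1) (hα : ∀ m, ‖α m‖ < 1) (cv : ∀ m, ‖BB ω α m (ω m * α m)‖ ≤ th)
    {θ Fk : ℂ → ℂ} (dθ : DifferentiableOn ℂ θ (ball 0 1)) (iθ : InjOn θ (ball 0 1)) {s : ℕ}
    (rel : ∀ v ∈ ball (0 : ℂ) 1, Fk (θ v) = φ0 (BB ω α s v))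
    (off : ∀ v ∈ ball (0 : ℂ) 1, th < ‖BB ω α s v‖ → θ v ∉ Ph 𝒰 (Pn P x R))
    (pb : ∀ {S : Set ℂ} {H G' G : ℂ → ℂ}, Lr 𝒰 (Fn f z k x R σ) (Dn f U J δ z k σ) (Pn P x R) S H G' →
      (∀ v ∈ S, H v ∈ θ '' ball 0 1) →
      Lr 𝒰 (Fn f z k x R σ) (Dn f U J δ z k σ) (Pn P x R) S (fun v => Fk (H v)) G →
        ∃ (a : ℝ) (b : ℂ), a ≠ 0 ∧ ∀ v ∈ S, G v = a * G' v + b)
    (cr : ∃ v y : ℂ, ‖v‖ = r ∧ ‖y‖ < 1 ∧ ‖BB ω α s y‖ = r ∧ θ y = φ0 v) :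
    ∃ y ∈ ball (0 : ℂ) 1, ‖BB ω α s y‖ < r ∧ θ y ∈ Ph 𝒰 (Pn P x R) ∧
      Mk (Lr 𝒰 (Fn f z k x R σ) (Dn f U J δ z k σ) (Pn P x R)) (θ y) := by
  obtain ⟨y, h1, h2, h3, h4⟩ := mq_rq h hX hT hz hR hσ ht hL th0 thr r1 dφ iφ oφ bφ of0 ex hω hα cv dθ iθ rel off pb cr
  exact ⟨y, h1, h2, h3, hMk _ h3 h4⟩

end Pool.Agent.H65.MP
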