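import Pool.Agent.H65.MP.Defs
import Pool.Agent.H41.XF.Nea

/-!
# DIM* (MP_8f2e1c_an), chapter X*, marked points: branches at regular points

`rq_lim`: the branches at a regular point have a univalent limit on a disc. `rq_ball`: this disc consists of regular points;
`rq_open`. `rq_gd`: its points off the limit set are good. `rq_all`: a connected set which contains a good point and whose
points in `Ph 𝒰 P` are regular consists of regular or good points.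
-/

set_option autoImplicit false

open Filter Topology Metric Set

namespace Pool.Agent.H65.MP

open Pool.Agent.H56.UD
open Pool.Agent.H43.UB (ph_closed uh_inj uh_der)
open Pool.Agent.H64.XL (LT)
open Pool.Agent.H41.XF (gb)

variable {𝒰 : Ultrafilter ℕ} {F : ℕ → ℂ → ℂ} {D P : ℕ → Set ℂ}

/-- the derivative of a local inverse -/
private theorem br_der {f g : ℂ → ℂ} {D : Set ℂ} (hD : IsOpen D) (hf : DifferentiableOn ℂ f D)
    {w : ℂ} {ρ : ℝ} (hg : DifferentiableOn ℂ g (ball w ρ)) (h : ∀ u ∈ ball w ρ, g u ∈ D ∧ f (g u) = u)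
    {u : ℂ} (hu : u ∈ ball w ρ) : deriv f (g u) * deriv g u = 1 := by
  have h1 : HasDerivAt f (deriv f (g u)) (g u) :=
    (hf.differentiableAt (hD.mem_nhds (h u hu).1)).hasDerivAt
  have h2 : HasDerivAt g (deriv g u) u :=
    (hg.differentiableAt (isOpen_ball.mem_nhds hu)).hasDerivAt
  have h3 := h1.comp u h2
  have h4 : HasDerivAt (f ∘ g) 1 u := by
    refine (hasDerivAt_id u).congr_of_eventuallyEq ?_
    filter_upwards [isOpen_ball.mem_nhds hu] with v hv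
    exact (h v hv).2
  exact h3.unique h4

/-- the branches at a regular point -/
theorem rq_lim {w : ℂ} (hw : w ∈ Rq 𝒰 F D) : ∃ (ρ M : ℝ) (G : ℕ → ℂ → ℂ) (g : ℂ → ℂ), 0 < ρ ∧
    (∀ᶠ n in (𝒰 : Filter ℕ), DifferentiableOn ℂ (G n) (ball w ρ) ∧ ∀ u ∈ ball w ρ, G n u ∈ D n ∧ F n (G n u) = u) ∧
    (∀ᶠ n in (𝒰 : Filter ℕ), ∀ u ∈ ball w ρ, ‖G n u‖ ≤ M) ∧
    TendstoLocallyUniformlyOn G g (𝒰 : Filter ℕ) (ball w ρ) ∧ DifferentiableOn ℂ g (ball w ρ) ∧ InjOn g (ball w ρ) := by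
  classical
  obtain ⟨ρ, M, hρ, hev⟩ := hw
  obtain ⟨G, hG⟩ : ∃ G : ℕ → ℂ → ℂ, ∀ᶠ n in (𝒰 : Filter ℕ), Bq (F n) (D n) w ρ M (G n) := by
    refine ⟨fun n => if h : ∃ G : ℂ → ℂ, Bq (F n) (D n) w ρ M G then h.choose else fun _ => 0, ?_⟩
    filter_upwards [hev] with n hn
    rw [dif_pos hn]
    exact hn.choose_spec
  have hwm : w ∈ ball w ρ := mem_ball_self hρ
  obtain ⟨g, hg1, -, hg3⟩ := ulim 𝒰 (isOpen_ball (x := w) (ε := ρ)) (G := G) (M := M)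
    (hG.mono fun n hn => ⟨hn.diff, fun u hu => (hn.val u hu).2.2⟩)
  have hgd := ulim_deriv 𝒰 (isOpen_ball (x := w) (ε := ρ)) (hG.mono fun n hn => hn.diff) hg3
  have hd0 : deriv g w ≠ 0 := by
    intro h0
    have h1 : Tendsto (fun n => M * ‖deriv (G n) w‖) (𝒰 : Filter ℕ) (𝓝 (M * ‖deriv g w‖)) :=
      ((hgd.tendsto_at hwm).norm).const_mul M
    have h2 := ge_of_tendsto h1 (hG.mono fun n hn => hn.lb)
    rw [h0, norm_zero, mul_zero] at h2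
    linarith
  have hinj : InjOn g (ball w ρ) := by
    refine uh_inj 𝒰 isOpen_ball (convex_ball w ρ).isPreconnected (hG.mono fun n hn => hn.diff) hg3 ?_ ⟨w, hwm, hd0⟩
    filter_upwards [hG] with n hn u hu v hv huv
    rw [← (hn.val u hu).2.1, ← (hn.val v hv).2.1, huv]
  exact ⟨ρ, M, G, g, hρ, hG.mono fun n hn => ⟨hn.diff, fun u hu => ⟨(hn.val u hu).1, (hn.val u hu).2.1⟩⟩,
    hG.mono fun n hn u hu => (hn.val u hu).2.2, hg3, hg1, hinj⟩

/-- the points of the disc are regular -/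
theorem rq_ball {w : ℂ} {ρ M : ℝ} {G : ℕ → ℂ → ℂ} {g : ℂ → ℂ}
    (hG : ∀ᶠ n in (𝒰 : Filter ℕ), DifferentiableOn ℂ (G n) (ball w ρ) ∧ ∀ u ∈ ball w ρ, G n u ∈ D n ∧ F n (G n u) = u)
    (hM : ∀ᶠ n in (𝒰 : Filter ℕ), ∀ u ∈ ball w ρ, ‖G n u‖ ≤ M)
    (hc : TendstoLocallyUniformlyOn G g (𝒰 : Filter ℕ) (ball w ρ)) (gd : DifferentiableOn ℂ g (ball w ρ))
    (gi : InjOn g (ball w ρ)) {v : ℂ} (hv : v ∈ ball w ρ) : v ∈ Rq 𝒰 F D := by
  obtain ⟨t, ht, hts⟩ := Metric.isOpen_iff.1 isOpen_ball v hv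
  have hd0 : deriv g v ≠ 0 := uh_der isOpen_ball gd gi hv
  have hpos : 0 < ‖deriv g v‖ := norm_pos_iff.2 hd0
  have hgd := ulim_deriv 𝒰 (isOpen_ball (x := w) (ε := ρ)) (hG.mono fun n hn => hn.1) hc
  have h1 : Tendsto (fun n => ‖deriv (G n) v‖) (𝒰 : Filter ℕ) (𝓝 ‖deriv g v‖) := (hgd.tendsto_at hv).norm
  have h2 : ∀ᶠ n in (𝒰 : Filter ℕ), ‖deriv g v‖ / 2 < ‖deriv (G n) v‖ := h1.eventually_const_lt (by linarith)
  refine ⟨t, max M (2 / ‖deriv g v‖), ht, ?_⟩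
  filter_upwards [hG, hM, h2] with n hn hMn h2n
  refine ⟨G n, hn.1.mono hts, fun u hu => ⟨(hn.2 u (hts hu)).1, (hn.2 u (hts hu)).2,
    (hMn u (hts hu)).trans (le_max_left _ _)⟩, ?_⟩
  calc (1 : ℝ) = 2 / ‖deriv g v‖ * (‖deriv g v‖ / 2) := by
        field_simp
    _ ≤ max M (2 / ‖deriv g v‖) * ‖deriv (G n) v‖ :=
        mul_le_mul (le_max_right _ _) h2n.le (by positivity) ((by positivity : (0 : ℝ) ≤ 2 / ‖deriv g v‖).trans (le_max_right _ _))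

theorem rq_open : IsOpen (Rq 𝒰 F D) := by
  rw [isOpen_iff_mem_nhds]
  intro w hw
  obtain ⟨ρ, M, G, g, hρ, h1, h2, h3, h4, h5⟩ := rq_lim hw
  filter_upwards [ball_mem_nhds w hρ] with v hv
  exact rq_ball h1 h2 h3 h4 h5 hv

/-- the points of the disc off the limit set are good -/
theorem rq_gd (hT : LT 𝒰 F D P) {w : ℂ} {ρ : ℝ} {G : ℕ → ℂ → ℂ} {g : ℂ → ℂ}
    (hG : ∀ᶠ n in (𝒰 : Filter ℕ), DifferentiableOn ℂ (G n) (ball w ρ) ∧ ∀ u ∈ ball w ρ, G n u ∈ D n ∧ F n (G n u) = u)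
    (hc : TendstoLocallyUniformlyOn G g (𝒰 : Filter ℕ) (ball w ρ)) (gd : DifferentiableOn ℂ g (ball w ρ))
    (gi : InjOn g (ball w ρ)) {v : ℂ} (hv : v ∈ ball w ρ) (hvP : v ∉ Ph 𝒰 P) : Gd 𝒰 F D P v (g v) := by
  have hd0 : deriv g v ≠ 0 := uh_der isOpen_ball gd gi hv
  have hpos : 0 < ‖deriv g v‖ := norm_pos_iff.2 hd0
  have hgd := ulim_deriv 𝒰 (isOpen_ball (x := w) (ε := ρ)) (hG.mono fun n hn => hn.1) hc
  have h1 : Tendsto (fun n => ‖deriv (G n) v‖) (𝒰 : Filter ℕ) (𝓝 ‖deriv g v‖) := (hgd.tendsto_at hv).norm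
  have h2 : ∀ᶠ n in (𝒰 : Filter ℕ), ‖deriv g v‖ / 2 < ‖deriv (G n) v‖ := h1.eventually_const_lt (by linarith)
  have h3 : ∀ᶠ n in (𝒰 : Filter ℕ), ‖deriv (G n) v‖ < 2 * ‖deriv g v‖ := h1.eventually_lt_const (by linarith)
  refine ⟨hvP, max (2 / ‖deriv g v‖) (2 * ‖deriv g v‖), fun n => G n v, ?_, hc.tendsto_at hv, ?_⟩
  · filter_upwards [hG, h2, h3] with n hn h2n h3n
    have e1 := br_der (hT.Do n) (hT.Fd n) hn.1 hn.2 hv
    have hdn : 0 < ‖deriv (G n) v‖ := lt_trans (by positivity) h2n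
    have e2 : ‖deriv (F n) (G n v)‖ = 1 / ‖deriv (G n) v‖ := by
      rw [eq_div_iff hdn.ne', ← norm_mul, e1, norm_one]
    refine ⟨(hn.2 v hv).1, ?_, ?_⟩
    · rw [e2, mul_one_div, one_le_div hdn]
      exact h3n.le.trans (le_max_right _ _)
    · rw [e2, div_le_iff₀ hdn]
      calc (1 : ℝ) = 2 / ‖deriv g v‖ * (‖deriv g v‖ / 2) := by
            field_simp
        _ ≤ _ := mul_le_mul (le_max_left _ _) h2n.le (by positivity)
            ((by positivity : (0 : ℝ) ≤ 2 / ‖deriv g v‖).trans (le_max_left _ _))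
  · refine tendsto_const_nhds.congr' ?_
    filter_upwards [hG] with n hn
    exact ((hn.2 v hv).2).symm

/-- regular or good points -/
theorem rq_all (hT : LT 𝒰 F D P) {T : Set ℂ} (Tc : IsPreconnected T) (hne : ∃ w ∈ T, ∃ s, Gd 𝒰 F D P w s)
    (hreg : ∀ w ∈ T, w ∈ Ph 𝒰 P → w ∈ Rq 𝒰 F D) : ∀ w ∈ T, w ∈ Rq 𝒰 F D ∨ ∃ s, Gd 𝒰 F D P w s := by
  obtain ⟨A, hA⟩ : ∃ A : Set ℂ, A = {w | w ∈ Rq 𝒰 F D ∨ ∃ s, Gd 𝒰 F D P w s} := ⟨_, rfl⟩
  have Ao : IsOpen A := by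
    rw [isOpen_iff_mem_nhds]
    intro w hw
    rw [hA] at hw
    rcases hw with hw | ⟨s, hs⟩
    · filter_upwards [rq_open.mem_nhds hw] with v hv
      rw [hA]
      exact Or.inl hv
    · have hc : (Ph 𝒰 P)ᶜ ∈ 𝓝 w := (ph_closed (𝒰 := 𝒰) (P := P)).isOpen_compl.mem_nhds hs.1
      obtain ⟨r, hr, hrb⟩ := Metric.nhds_basis_closedBall.mem_iff.1 hc
      obtain ⟨Gn, g, -, -, -, -, -, -, e7⟩ := gb hT hs hr (Set.disjoint_left.2 fun x hx hx' => hrb hx hx')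
      filter_upwards [ball_mem_nhds w hr] with v hv
      rw [hA]
      exact Or.inr ⟨_, e7 v hv⟩
  have key : T ⊆ A := by
    refine Tc.subset_of_closure_inter_subset Ao ?_ ?_
    · obtain ⟨w, hw, s, hs⟩ := hne
      exact ⟨w, hw, by rw [hA]; exact Or.inr ⟨s, hs⟩⟩
    · rintro w ⟨hwA, hwT⟩
      by_cases hwP : w ∈ Ph 𝒰 P
      · rw [hA]
        exact Or.inl (hreg w hwT hwP)
      have hc : (Ph 𝒰 P)ᶜ ∈ 𝓝 w := (ph_closed (𝒰 := 𝒰) (P := P)).isOpen_compl.mem_nhds hwP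
      obtain ⟨r, hr, hrb⟩ := Metric.nhds_basis_closedBall.mem_iff.1 hc
      obtain ⟨w', hw', hd⟩ := Metric.mem_closure_iff.1 hwA (r / 2) (by positivity)
      have hsub : closedBall w' (r / 2) ⊆ closedBall w r := by
        refine closedBall_subset_closedBall' ?_
        rw [dist_comm]
        linarith
      have hoff : Disjoint (closedBall w' (r / 2)) (Ph 𝒰 P) := Set.disjoint_left.2 fun x hx hx' => hrb (hsub hx) hx'
      have hw'P : w' ∉ Ph 𝒰 P := fun hc => Set.disjoint_left.1 hoff (mem_closedBall_self (by positivity)) hc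
      have hs' : ∃ s, Gd 𝒰 F D P w' s := by
        rw [hA] at hw'
        rcases hw' with hw' | hw'
        · obtain ⟨ρ, M, G, g, hρ, h1, h2, h3, h4, h5⟩ := rq_lim hw'
          exact ⟨_, rq_gd hT h1 h3 h4 h5 (mem_ball_self hρ) hw'P⟩
        · exact hw'
      obtain ⟨s', hs'⟩ := hs'
      obtain ⟨Gn, g, -, -, -, -, -, -, e7⟩ := gb hT hs' (by positivity) hoff
      rw [hA]
      exact Or.inr ⟨_, e7 w (by rw [mem_ball]; exact hd)⟩
  intro w hw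
  have := key hw
  rw [hA] at this
  exact this

end Pool.Agent.H65.MP
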