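import Pool.Agent.H56.UD.Defs

/-!
# DIM* (MP_8f2e1c_an), chapter X*, marked points: regular points of the limit

`Rq 𝒰 F D`: the points over which there are bounded branches with derivative bounded below, for almost all `n` (no condition on
the limit set `Ph 𝒰 P`: the point may be in it).
-/

set_option autoImplicit false

open Filter Topology Metric Set

namespace Pool.Agent.H65.MP

open Pool.Agent.H56.UD (Bq)

/-- regular points of the limit -/
def Rq (𝒰 : Ultrafilter ℕ) (F : ℕ → ℂ → ℂ) (D : ℕ → Set ℂ) : Set ℂ :=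
  {w | ∃ ρ M : ℝ, 0 < ρ ∧ ∀ᶠ n in (𝒰 : Filter ℕ), ∃ G : ℂ → ℂ, Bq (F n) (D n) w ρ M G}

end Pool.Agent.H65.MP
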